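import Pool.Agent.Helper95.AB.GoalsX

/-! # Project AB (MP_1ef41b_an), packet GAM: projection to a line in `L²(-a,a)`. -/

open MeasureTheory Set Filter Topology
open scoped ContDiff

noncomputable section

namespace Pool.Agent.Helper26.AB

open Pool.Agent.Helper24.AB Pool.Agent.Helper95.AB

theorem norm_sq_expand (g γ : ℂ) (r : ℝ) :
    ‖g - γ * (r : ℂ)‖ ^ 2 = ‖g‖ ^ 2 - 2 * ((starRingEnd ℂ) γ * (g * (r : ℂ))).re +
      ‖γ‖ ^ 2 * r ^ 2 := by
  rw [← Complex.normSq_eq_norm_sq, ← Complex.normSq_eq_norm_sq, ← Complex.normSq_eq_norm_sq]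
  simp only [Complex.normSq_apply, Complex.sub_re, Complex.sub_im, Complex.mul_re, Complex.mul_im,
    Complex.ofReal_re, Complex.ofReal_im, Complex.conj_re, Complex.conj_im]
  ring

theorem gam : S_GAM := by
  intro a B ρ G ha hρ hρ0 hρ2 hGm hGB
  have hfin : volume (Ioo (-a) a) ≠ ⊤ := by rw [Real.volume_Ioo]; exact ENNReal.ofReal_ne_top
  have hB : 0 ≤ B := (norm_nonneg _).trans (hGB 0 ⟨by linarith, ha⟩)
  have hρm : AEStronglyMeasurable ρ (volume.restrict (Ioo (-a) a)) :=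
    hρ.aestronglyMeasurable measurableSet_Ioo
  -- positivity
  have hw : 0 < ∫ x in Ioo (-a) a, ρ x ^ 2 := by
    rw [setIntegral_pos_iff_support_of_nonneg_ae]
    · have : Function.support (fun x => ρ x ^ 2) ∩ Ioo (-a) a = Ioo (-a) a := by
        apply inter_eq_right.mpr
        intro x hx
        rw [Function.mem_support]
        have := hρ0 x hx
        positivity
      rw [this, Real.volume_Ioo]
      rw [ENNReal.ofReal_pos]
      linarith
    · exact Eventually.of_forall fun x => sq_nonneg _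
    · exact hρ2
  -- integrability
  have h1 : IntegrableOn (fun _ : ℝ => (1 : ℝ)) (Ioo (-a) a) :=
    integrableOn_const hfin
  have hρ1 : IntegrableOn ρ (Ioo (-a) a) := by
    refine Integrable.mono' (h1.add hρ2) hρm ?_
    refine (ae_restrict_mem measurableSet_Ioo).mono fun x hx => ?_
    have := hρ0 x hx
    simp only [Pi.add_apply]
    rw [Real.norm_of_nonneg this.le]
    nlinarith [sq_nonneg (ρ x - 1)]
  have hρc : IntegrableOn (fun x => (ρ x : ℂ)) (Ioo (-a) a) := hρ1.ofReal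
  have hGρ : IntegrableOn (fun x => G x * (ρ x : ℂ)) (Ioo (-a) a) := by
    refine Integrable.mono' (hρ1.const_mul B) (hGm.mul hρc.aestronglyMeasurable) ?_
    refine (ae_restrict_mem measurableSet_Ioo).mono fun x hx => ?_
    have := hρ0 x hx
    rw [norm_mul, Complex.norm_real, Real.norm_of_nonneg this.le]
    exact mul_le_mul_of_nonneg_right (hGB x hx) this.le
  have hG2 : IntegrableOn (fun x => ‖G x‖ ^ 2) (Ioo (-a) a) := by
    refine Integrable.mono' (h1.const_mul (B ^ 2)) (hGm.norm.pow 2) ?_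
    refine (ae_restrict_mem measurableSet_Ioo).mono fun x hx => ?_
    rw [Real.norm_of_nonneg (by positivity), mul_one]
    exact pow_le_pow_left₀ (norm_nonneg _) (hGB x hx) 2
  have hG2le : ∫ x in Ioo (-a) a, ‖G x‖ ^ 2 ≤ 2 * a * B ^ 2 := by
    calc ∫ x in Ioo (-a) a, ‖G x‖ ^ 2 ≤ ∫ x in Ioo (-a) a, B ^ 2 := by
          apply setIntegral_mono_on hG2 (integrableOn_const hfin) measurableSet_Ioo
          intro x hx
          exact pow_le_pow_left₀ (norm_nonneg _) (hGB x hx) 2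
      _ = 2 * a * B ^ 2 := by
          rw [setIntegral_const, Measure.real, Real.volume_Ioo, ENNReal.toReal_ofReal (by linarith)]
          simp only [smul_eq_mul]
          ring
  set w : ℝ := ∫ x in Ioo (-a) a, ρ x ^ 2 with hwdef
  set I : ℂ := ∫ x in Ioo (-a) a, G x * (ρ x : ℂ) with hI
  set γ : ℂ := pc a ρ G with hγ
  have hγw : γ * (w : ℂ) = I := by
    have hw' : (w : ℂ) ≠ 0 := by exact_mod_cast hw.ne'
    rw [hγ, pc, ← hI, ← hwdef, div_mul_cancel₀ _ hw']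
  have hρ2c : IntegrableOn (fun x => (ρ x : ℂ) * (ρ x : ℂ)) (Ioo (-a) a) := by
    have := Complex.ofRealCLM.integrable_comp hρ2
    refine this.congr (Eventually.of_forall fun x => ?_)
    simp [sq]
  have hρ2i : ∫ x in Ioo (-a) a, (ρ x : ℂ) * (ρ x : ℂ) = (w : ℂ) := by
    have h3 : ∫ x in Ioo (-a) a, ((ρ x ^ 2 : ℝ) : ℂ) = (w : ℂ) := integral_complex_ofReal
    rw [← h3]
    apply integral_congr_ae
    refine Eventually.of_forall fun x => ?_
    simp [sq]
  -- orthogonality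
  have horth : (∫ x in Ioo (-a) a, (G x - γ * (ρ x : ℂ)) * (ρ x : ℂ)) = 0 := by
    have e : ∀ x, (G x - γ * (ρ x : ℂ)) * (ρ x : ℂ) =
        G x * (ρ x : ℂ) - γ * ((ρ x : ℂ) * (ρ x : ℂ)) := fun x => by ring
    simp_rw [e]
    rw [integral_sub hGρ (hρ2c.const_mul γ), integral_const_mul, hρ2i, ← hI, hγw, sub_self]
  -- the square
  have hcross : IntegrableOn (fun x => ((starRingEnd ℂ) γ * (G x * (ρ x : ℂ))).re)
      (Ioo (-a) a) := (hGρ.const_mul ((starRingEnd ℂ) γ)).re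
  have hsq : IntegrableOn (fun x => ‖G x - γ * (ρ x : ℂ)‖ ^ 2) (Ioo (-a) a) := by
    have e : (fun x => ‖G x - γ * (ρ x : ℂ)‖ ^ 2) = fun x =>
        ‖G x‖ ^ 2 - 2 * ((starRingEnd ℂ) γ * (G x * (ρ x : ℂ))).re + ‖γ‖ ^ 2 * ρ x ^ 2 :=
      funext fun x => norm_sq_expand _ _ _
    rw [e]
    exact (hG2.sub (hcross.const_mul 2)).add (hρ2.const_mul _)
  have hcr : ∫ x in Ioo (-a) a, ((starRingEnd ℂ) γ * (G x * (ρ x : ℂ))).re = ‖γ‖ ^ 2 * w := by
    have h2 : ∫ x in Ioo (-a) a, ((starRingEnd ℂ) γ * (G x * (ρ x : ℂ))).re =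
        (∫ x in Ioo (-a) a, (starRingEnd ℂ) γ * (G x * (ρ x : ℂ))).re :=
      integral_re (hGρ.const_mul ((starRingEnd ℂ) γ))
    rw [h2, integral_const_mul, ← hI, ← hγw, ← mul_assoc, ← Complex.normSq_eq_conj_mul_self,
      Complex.normSq_eq_norm_sq, ← Complex.ofReal_mul, Complex.ofReal_re]
  have hval : ∫ x in Ioo (-a) a, ‖G x - γ * (ρ x : ℂ)‖ ^ 2 =
      (∫ x in Ioo (-a) a, ‖G x‖ ^ 2) - ‖γ‖ ^ 2 * w := by
    have e : ∀ x, ‖G x - γ * (ρ x : ℂ)‖ ^ 2 =
        ‖G x‖ ^ 2 - 2 * ((starRingEnd ℂ) γ * (G x * (ρ x : ℂ))).re + ‖γ‖ ^ 2 * ρ x ^ 2 :=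
      fun x => norm_sq_expand _ _ _
    have hA : IntegrableOn (fun x => ‖G x‖ ^ 2 -
        2 * ((starRingEnd ℂ) γ * (G x * (ρ x : ℂ))).re) (Ioo (-a) a) :=
      hG2.sub (hcross.const_mul 2)
    have h4 : ∫ x in Ioo (-a) a, (‖G x‖ ^ 2 -
        2 * ((starRingEnd ℂ) γ * (G x * (ρ x : ℂ))).re) =
        (∫ x in Ioo (-a) a, ‖G x‖ ^ 2) - 2 * (‖γ‖ ^ 2 * w) := by
      rw [integral_sub hG2 (hcross.const_mul 2), integral_const_mul, hcr]
    simp_rw [e]
    rw [integral_add hA (hρ2.const_mul _), h4, integral_const_mul, ← hwdef]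
    ring
  have hnn : 0 ≤ ∫ x in Ioo (-a) a, ‖G x - γ * (ρ x : ℂ)‖ ^ 2 :=
    integral_nonneg fun x => sq_nonneg _
  have hγ0 : 0 ≤ ‖γ‖ ^ 2 * w := by positivity
  refine ⟨hw, by linarith, horth, hsq, by linarith⟩

end Pool.Agent.Helper26.AB
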