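import Pool.Agent.Helper10.AB.GoalsEMB

/-! # Project AB (MP_1ef41b_an), packet ISO: the isotopy consists of injective immersions. -/

open Set Filter Topology
open scoped ContDiff

noncomputable section

namespace Pool.Agent.Helper26.AB

open Pool.Agent.Helper24.AB Pool.Agent.Helper10.AB

theorem sum14 (f : Fin 14 → ℂ) : ∑ i, f i =
    f 0 + f 1 + f 2 + f 3 + f 4 + f 5 + f 6 + f 7 + f 8 + f 9 + f 10 + f 11 + f 12 + f 13 := by
  rw [Fin.sum_univ_castSucc, Fin.sum_univ_castSucc, Fin.sum_univ_castSucc, Fin.sum_univ_castSucc,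
    Fin.sum_univ_castSucc, Fin.sum_univ_castSucc, Fin.sum_univ_eight]
  rfl

theorem F0_0 (P : V4) (t : ℝ) : F0 0 P t =
    (dd (t - 1) : ℂ) * mon ![-1, -1, 1] P - (dd (t - 1) : ℂ) * mon ![-1, -2, 1] P +
      (cc (t - 1) : ℂ) * mon ![1, 0, 0] P + (ss (t - 1) : ℂ) * mon ![1, -1, 0] P := by
  unfold F0
  rw [sum14]
  simp [Pool.Agent.Helper10.AB.cmp, coef, frq]
  ring

theorem F0_1 (P : V4) (t : ℝ) : F0 1 P t =
    (dd (t - 4) : ℂ) * mon ![-1, 0, 1] P - (dd (t - 4) : ℂ) * mon ![-2, 1, 1] P +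
      (cc (t - 4) : ℂ) * mon ![0, 1, 0] P + (ss (t - 4) : ℂ) * mon ![-1, 2, 0] P := by
  unfold F0
  rw [sum14]
  simp [Pool.Agent.Helper10.AB.cmp, coef, frq]
  ring

theorem F0_2 (P : V4) (t : ℝ) : F0 2 P t =
    (cc (t - 1) : ℂ) * mon ![-1, -1, 1] P + ((ss (t - 1) : ℂ) - ss (t - 4)) * mon ![-1, 0, 1] P +
      (dd (t - 1) : ℂ) * mon ![1, 1, 0] P + ((dd (t - 4) : ℂ) - dd (t - 1)) * mon ![1, 0, 0] P -
      (dd (t - 4) : ℂ) * mon ![0, 1, 0] P + (ss (t - 4) : ℂ) * mon ![0, -1, 1] P := by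
  unfold F0
  rw [sum14]
  simp [Pool.Agent.Helper10.AB.cmp, coef, frq]
  ring

theorem D0_0 (P v : V4) (t : ℝ) : D0 0 P t v =
    (dd (t - 1) : ℂ) * mon ![-1, -1, 1] P * (v 2 - v 0 - v 1) -
      (dd (t - 1) : ℂ) * mon ![-1, -2, 1] P * (v 2 - v 0 - 2 * v 1) +
      (cc (t - 1) : ℂ) * mon ![1, 0, 0] P * v 0 +
      (ss (t - 1) : ℂ) * mon ![1, -1, 0] P * (v 0 - v 1) := by
  unfold D0
  rw [sum14]
  simp [Pool.Agent.Helper10.AB.cmp, coef, frq, lJ]
  ring

theorem D0_1 (P v : V4) (t : ℝ) : D0 1 P t v =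
    (dd (t - 4) : ℂ) * mon ![-1, 0, 1] P * (v 2 - v 0) -
      (dd (t - 4) : ℂ) * mon ![-2, 1, 1] P * (v 2 - 2 * v 0 + v 1) +
      (cc (t - 4) : ℂ) * mon ![0, 1, 0] P * v 1 +
      (ss (t - 4) : ℂ) * mon ![-1, 2, 0] P * (2 * v 1 - v 0) := by
  unfold D0
  rw [sum14]
  simp [Pool.Agent.Helper10.AB.cmp, coef, frq, lJ]
  ring

theorem D0_2 (P v : V4) (t : ℝ) : D0 2 P t v =
    (cc (t - 1) : ℂ) * mon ![-1, -1, 1] P * (v 2 - v 0 - v 1) +
      ((ss (t - 1) : ℂ) - ss (t - 4)) * mon ![-1, 0, 1] P * (v 2 - v 0) +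
      (dd (t - 1) : ℂ) * mon ![1, 1, 0] P * (v 0 + v 1) +
      ((dd (t - 4) : ℂ) - dd (t - 1)) * mon ![1, 0, 0] P * v 0 -
      (dd (t - 4) : ℂ) * mon ![0, 1, 0] P * v 1 +
      (ss (t - 4) : ℂ) * mon ![0, -1, 1] P * (v 2 - v 1) := by
  unfold D0
  rw [sum14]
  simp [Pool.Agent.Helper10.AB.cmp, coef, frq, lJ]
  ring

/-! ## the monomials -/

section mons
variable (P : V4)

theorem mon_eq (a b c : ℤ) : mon ![a, b, c] P =
    Complex.exp ((a : ℂ) * P 0 + (b : ℂ) * P 1 + (c : ℂ) * P 2) := by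
  simp [mon]

/-- `z₁` -/
def z1 : ℂ := Complex.exp (P 0)
/-- `z₂` -/
def z2 : ℂ := Complex.exp (P 1)
/-- `z₃` -/
def z3 : ℂ := Complex.exp (P 2 - P 0 - P 1)

theorem z1_ne : z1 P ≠ 0 := Complex.exp_ne_zero _
theorem z2_ne : z2 P ≠ 0 := Complex.exp_ne_zero _
theorem z3_ne : z3 P ≠ 0 := Complex.exp_ne_zero _

theorem m_z3 : mon ![-1, -1, 1] P = z3 P := by
  rw [mon_eq, z3]; congr 1; push_cast; ring
theorem m_z1 : mon ![1, 0, 0] P = z1 P := by
  rw [mon_eq, z1]; congr 1; push_cast; ring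
theorem m_z2 : mon ![0, 1, 0] P = z2 P := by
  rw [mon_eq, z2]; congr 1; push_cast; ring
theorem m_a : mon ![-1, -2, 1] P = z3 P / z2 P := by
  rw [mon_eq, z3, z2, ← Complex.exp_sub]; congr 1; push_cast; ring
theorem m_b : mon ![1, -1, 0] P = z1 P / z2 P := by
  rw [mon_eq, z1, z2, ← Complex.exp_sub]; congr 1; push_cast; ring
theorem m_c : mon ![-1, 0, 1] P = z2 P * z3 P := by
  rw [mon_eq, z3, z2, ← Complex.exp_add]; congr 1; push_cast; ring
theorem m_d : mon ![-2, 1, 1] P = z2 P * z2 P * z3 P / z1 P := by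
  rw [mon_eq, z3, z2, z1, ← Complex.exp_add, ← Complex.exp_add, ← Complex.exp_sub]
  congr 1; push_cast; ring
theorem m_e : mon ![-1, 2, 0] P = z2 P * z2 P / z1 P := by
  rw [mon_eq, z2, z1, ← Complex.exp_add, ← Complex.exp_sub]
  congr 1; push_cast; ring
theorem m_f : mon ![1, 1, 0] P = z1 P * z2 P := by
  rw [mon_eq, z2, z1, ← Complex.exp_add]
  congr 1; push_cast; ring
theorem m_g : mon ![0, -1, 1] P = z1 P * z3 P := by
  rw [mon_eq, z3, z1, ← Complex.exp_add]
  congr 1; push_cast; ring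

end mons

/-! ## the functions cc, ss, dd -/

theorem cc_add_ss (x : ℝ) : cc x + ss x = 1 := by
  unfold cc ss; rw [add_comm]; exact Real.sin_sq_add_cos_sq _

theorem dd_sq (x : ℝ) : dd x * dd x = cc x * ss x := by
  unfold cc ss dd; ring

theorem low {x : ℝ} (hx : x ≤ 0) : cc x = 1 ∧ ss x = 0 ∧ dd x = 0 := by
  have h : th x = 0 := by unfold th; rw [Real.smoothTransition.zero_of_nonpos hx]; ring
  unfold cc ss dd; rw [h]; simp

theorem high {x : ℝ} (hx : 1 ≤ x) : cc x = 0 ∧ ss x = 1 ∧ dd x = 0 := by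
  have h : th x = Real.pi / 2 := by unfold th; rw [Real.smoothTransition.one_of_one_le hx]; ring
  unfold cc ss dd; rw [h]; simp

/-! ## algebra -/

/-- The matrix with determinant one. -/
theorem alg {c s d u x y : ℂ} (hu : u ≠ 0) (h1 : c + s = 1) (h2 : d * d = c * s)
    (hA : (c + s * u) * x + d * (u - 1) * y = 0)
    (hB : d * (1 - 1 / u) * x + (c + s / u) * y = 0) : x = 0 ∧ y = 0 := by
  have hB' : d * (u - 1) * x + (c * u + s) * y = 0 := by
    have : d * (u - 1) * x + (c * u + s) * y = u * (d * (1 - 1 / u) * x + (c + s / u) * y) := by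
      field_simp
    rw [this, hB, mul_zero]
  have hc : c = 1 - s := by rw [← h1]; ring
  have hdet : (c + s * u) * (c * u + s) - (d * (u - 1)) * (d * (u - 1)) = u := by
    have : (d * (u - 1)) * (d * (u - 1)) = c * s * (u - 1) ^ 2 := by rw [← h2]; ring
    rw [this, hc]; ring
  have hx : u * x = 0 := by
    calc u * x = ((c + s * u) * (c * u + s) - (d * (u - 1)) * (d * (u - 1))) * x := by rw [hdet]
      _ = (c * u + s) * ((c + s * u) * x + d * (u - 1) * y) -
          (d * (u - 1)) * (d * (u - 1) * x + (c * u + s) * y) := by ring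
      _ = 0 := by rw [hA, hB']; ring
  have hy : u * y = 0 := by
    calc u * y = ((c + s * u) * (c * u + s) - (d * (u - 1)) * (d * (u - 1))) * y := by rw [hdet]
      _ = (c + s * u) * (d * (u - 1) * x + (c * u + s) * y) -
          (d * (u - 1)) * ((c + s * u) * x + d * (u - 1) * y) := by ring
      _ = 0 := by rw [hA, hB']; ring
  exact ⟨(mul_eq_zero.mp hx).resolve_left hu, (mul_eq_zero.mp hy).resolve_left hu⟩

theorem alg2 {c s d u x y x' y' : ℂ} (hu : u ≠ 0) (h1 : c + s = 1) (h2 : d * d = c * s)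
    (hA : (c + s * u) * x + d * (u - 1) * y = (c + s * u) * x' + d * (u - 1) * y')
    (hB : d * (1 - 1 / u) * x + (c + s / u) * y = d * (1 - 1 / u) * x' + (c + s / u) * y') :
    x = x' ∧ y = y' := by
  have := alg (x := x - x') (y := y - y') hu h1 h2 (by linear_combination hA)
    (by linear_combination hB)
  exact ⟨sub_eq_zero.mp this.1, sub_eq_zero.mp this.2⟩

theorem F_det (t : ℝ) (P P' : V4) (h : ∀ j : Fin 4, j ≠ 3 → F0 j P t = F0 j P' t) :
    z1 P = z1 P' ∧ z2 P = z2 P' ∧ z3 P = z3 P' := by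
  have h0 := h 0 (by decide)
  have h1 := h 1 (by decide)
  have h2 := h 2 (by decide)
  rw [F0_0, F0_0] at h0
  rw [F0_1, F0_1] at h1
  rw [F0_2, F0_2] at h2
  simp only [m_z1, m_z2, m_z3, m_a, m_b, m_c, m_d, m_e, m_f, m_g] at h0 h1 h2
  have e1 := z1_ne P
  have e2 := z2_ne P
  have e3 := z3_ne P
  have e1' := z1_ne P'
  have e2' := z2_ne P'
  have e3' := z3_ne P'
  generalize z1 P = x1 at *
  generalize z2 P = x2 at *
  generalize z3 P = x3 at *
  generalize z1 P' = y1 at *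
  generalize z2 P' = y2 at *
  generalize z3 P' = y3 at *
  rcases le_total t 3 with ht | ht
  · obtain ⟨c4, s4, d4⟩ := low (x := t - 4) (by linarith)
    rw [c4, s4, d4] at h1
    rw [s4, d4] at h2
    have hcs : ((cc (t - 1) : ℝ) : ℂ) + (ss (t - 1) : ℝ) = 1 := by
      rw [← Complex.ofReal_add, cc_add_ss]; simp
    have hdd : ((dd (t - 1) : ℝ) : ℂ) * (dd (t - 1) : ℝ) = (cc (t - 1) : ℝ) * (ss (t - 1) : ℝ) := by
      rw [← Complex.ofReal_mul, dd_sq]; simp
    generalize ((cc (t - 1) : ℝ) : ℂ) = c at *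
    generalize ((ss (t - 1) : ℝ) : ℂ) = s at *
    generalize ((dd (t - 1) : ℝ) : ℂ) = d at *
    simp only [Complex.ofReal_zero, Complex.ofReal_one, zero_mul, one_mul, sub_zero, zero_sub,
      add_zero, zero_add] at h1 h2
    subst h1
    have := alg2 (c := c) (s := s) (d := d) (u := x2) (x := x3) (y := x1) (x' := y3) (y' := y1)
      e2 hcs hdd (by linear_combination h2) (by linear_combination h0)
    exact ⟨this.2, rfl, this.1⟩
  · obtain ⟨c1, s1, d1⟩ := high (x := t - 1) (by linarith)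
    rw [c1, s1, d1] at h0 h2
    have hcs : ((cc (t - 4) : ℝ) : ℂ) + (ss (t - 4) : ℝ) = 1 := by
      rw [← Complex.ofReal_add, cc_add_ss]; simp
    have hdd : ((dd (t - 4) : ℝ) : ℂ) * (dd (t - 4) : ℝ) = (cc (t - 4) : ℝ) * (ss (t - 4) : ℝ) := by
      rw [← Complex.ofReal_mul, dd_sq]; simp
    generalize ((cc (t - 4) : ℝ) : ℂ) = c at *
    generalize ((ss (t - 4) : ℝ) : ℂ) = s at *
    generalize ((dd (t - 4) : ℝ) : ℂ) = d at *
    simp only [Complex.ofReal_zero, Complex.ofReal_one, zero_mul, one_mul, sub_zero,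
      add_zero, zero_add] at h0 h2
    have hc : c = 1 - s := by rw [← hcs]; ring
    -- `u = x1 / x2`
    set u : ℂ := x1 / x2 with hu
    have hx1 : x1 = u * x2 := by rw [hu]; field_simp
    have hy1 : y1 = u * y2 := by rw [h0]; field_simp
    have hu0 : u ≠ 0 := by rw [hu]; exact div_ne_zero e1 e2
    have := alg2 (c := c) (s := s) (d := d) (u := u) (x := x2 * x3) (y := x2) (x' := y2 * y3)
      (y' := y2) hu0 hcs hdd
      (by
        rw [hx1, hy1] at h2
        rw [hc]
        linear_combination h2)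
      (by
        have k1 : x2 * x2 * x3 / x1 = x2 * x3 / u := by rw [hx1]; field_simp
        have k2 : y2 * y2 * y3 / y1 = y2 * y3 / u := by rw [hy1]; field_simp
        have k3 : x2 * x2 / x1 = x2 / u := by rw [hx1]; field_simp
        have k4 : y2 * y2 / y1 = y2 / u := by rw [hy1]; field_simp
        rw [k1, k2, k3, k4] at h1
        linear_combination h1)
    have h22 : x2 = y2 := this.2
    refine ⟨?_, h22, ?_⟩
    · rw [hx1, hy1, h22]
    · have := this.1
      rw [h22] at this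
      exact mul_left_cancel₀ e2' this

theorem iso : S_ISO := by
  refine ⟨?_, ?_⟩
  · intro t P P' h
    obtain ⟨h1, h2, h3⟩ := F_det t P P' h
    unfold z1 at h1
    unfold z2 at h2
    unfold z3 at h3
    obtain ⟨a, ha⟩ := Complex.exp_eq_exp_iff_exists_int.mp h1.symm
    obtain ⟨b, hb⟩ := Complex.exp_eq_exp_iff_exists_int.mp h2.symm
    obtain ⟨c, hc⟩ := Complex.exp_eq_exp_iff_exists_int.mp h3.symm
    refine ⟨![a, b, c + a + b], ?_, ?_, ?_⟩
    · simp only [Matrix.cons_val_zero]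
      rw [ha]; ring
    · simp only [Matrix.cons_val_one, Matrix.cons_val_zero]
      rw [hb]; ring
    · simp only [Matrix.cons_val]
      push_cast
      linear_combination hc + ha + hb
  · intro t P v h
    have h0 := h 0 (by decide)
    have h1 := h 1 (by decide)
    have h2 := h 2 (by decide)
    rw [D0_0] at h0
    rw [D0_1] at h1
    rw [D0_2] at h2
    simp only [m_z1, m_z2, m_z3, m_a, m_b, m_c, m_d, m_e, m_f, m_g] at h0 h1 h2
    have e1 := z1_ne P
    have e2 := z2_ne P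
    have e3 := z3_ne P
    generalize z1 P = x1 at *
    generalize z2 P = x2 at *
    generalize z3 P = x3 at *
    generalize v 0 = v0 at *
    generalize v 1 = v1 at *
    generalize v 2 = v2 at *
    rcases le_total t 3 with ht | ht
    · obtain ⟨c4, s4, d4⟩ := low (x := t - 4) (by linarith)
      rw [c4, s4, d4] at h1
      rw [s4, d4] at h2
      have hcs : ((cc (t - 1) : ℝ) : ℂ) + (ss (t - 1) : ℝ) = 1 := by
        rw [← Complex.ofReal_add, cc_add_ss]; simp
      have hdd : ((dd (t - 1) : ℝ) : ℂ) * (dd (t - 1) : ℝ) =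
          (cc (t - 1) : ℝ) * (ss (t - 1) : ℝ) := by
        rw [← Complex.ofReal_mul, dd_sq]; simp
      generalize ((cc (t - 1) : ℝ) : ℂ) = c at *
      generalize ((ss (t - 1) : ℝ) : ℂ) = s at *
      generalize ((dd (t - 1) : ℝ) : ℂ) = d at *
      simp only [Complex.ofReal_zero, Complex.ofReal_one, zero_mul, one_mul, sub_zero, zero_sub,
        add_zero, zero_add] at h1 h2
      have hv1 : v1 = 0 := (mul_eq_zero.mp h1).resolve_left e2
      rw [hv1] at h0 h2
      have := alg (c := c) (s := s) (d := d) (u := x2) (x := x3 * (v2 - v0)) (y := x1 * v0)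
        e2 hcs hdd (by linear_combination h2) (by linear_combination h0)
      have hv0 : v0 = 0 := (mul_eq_zero.mp this.2).resolve_left e1
      have hv2 : v2 - v0 = 0 := (mul_eq_zero.mp this.1).resolve_left e3
      refine ⟨hv0, hv1, ?_⟩
      rw [hv0, sub_zero] at hv2; exact hv2
    · obtain ⟨c1, s1, d1⟩ := high (x := t - 1) (by linarith)
      rw [c1, s1, d1] at h0 h2
      have hcs : ((cc (t - 4) : ℝ) : ℂ) + (ss (t - 4) : ℝ) = 1 := by
        rw [← Complex.ofReal_add, cc_add_ss]; simp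
      have hdd : ((dd (t - 4) : ℝ) : ℂ) * (dd (t - 4) : ℝ) =
          (cc (t - 4) : ℝ) * (ss (t - 4) : ℝ) := by
        rw [← Complex.ofReal_mul, dd_sq]; simp
      generalize ((cc (t - 4) : ℝ) : ℂ) = c at *
      generalize ((ss (t - 4) : ℝ) : ℂ) = s at *
      generalize ((dd (t - 4) : ℝ) : ℂ) = d at *
      simp only [Complex.ofReal_zero, Complex.ofReal_one, zero_mul, one_mul, sub_zero,
        add_zero, zero_add] at h0 h2
      have hc : c = 1 - s := by rw [← hcs]; ring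
      have hv01 : v0 - v1 = 0 := (mul_eq_zero.mp h0).resolve_left (div_ne_zero e1 e2)
      have hv0 : v0 = v1 := sub_eq_zero.mp hv01
      subst hv0
      set u : ℂ := x1 / x2 with hu
      have hx1 : x1 = u * x2 := by rw [hu]; field_simp
      have hu0 : u ≠ 0 := by rw [hu]; exact div_ne_zero e1 e2
      have := alg (c := c) (s := s) (d := d) (u := u) (x := x2 * x3 * (v2 - v0)) (y := x2 * v0)
        hu0 hcs hdd
        (by
          rw [hx1] at h2
          rw [hc]
          linear_combination h2)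
        (by
          have k1 : x2 * x2 * x3 / x1 = x2 * x3 / u := by rw [hx1]; field_simp
          have k3 : x2 * x2 / x1 = x2 / u := by rw [hx1]; field_simp
          rw [k1, k3] at h1
          linear_combination h1)
      have hv1 : v0 = 0 := (mul_eq_zero.mp this.2).resolve_left e2
      have hv2 : v2 - v0 = 0 := (mul_eq_zero.mp this.1).resolve_left (mul_ne_zero e2 e3)
      refine ⟨hv1, hv1, ?_⟩
      rw [hv1, sub_zero] at hv2; exact hv2

end Pool.Agent.Helper26.AB
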