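import Pool.Agent.Helper24.AB.PP.Goals

/-! # Project AB (MP_1ef41b_an), packet BD: the numerical properties of the blocks. -/

open MeasureTheory Set Filter Topology
open scoped ContDiff

noncomputable section

namespace Pool.Agent.Helper26.AB

open Pool.Agent.Helper24.AB

theorem bd : S_BD := by
  intro a ρ₀ eps ha ha2 hρ j
  have hq0 : 0 < min ρ₀ (a / 20) := lt_min hρ (by linarith)
  have hq1 : min ρ₀ (a / 20) ≤ ρ₀ := min_le_left _ _
  have hq2 : min ρ₀ (a / 20) ≤ a / 20 := min_le_right _ _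
  have hp0 : (0 : ℝ) < (1 / 2) ^ j := by positivity
  have hp1 : ((1 : ℝ) / 2) ^ j ≤ 1 := pow_le_one₀ (by norm_num) (by norm_num)
  have e1 : ((1 : ℝ) / 2) ^ (2 * j + 3) = (1 / 2) ^ j * (1 / 2) ^ j / 8 := by
    rw [pow_add, two_mul, pow_add]; norm_num; ring
  have e2 : ((1 : ℝ) / 2) ^ (j + 1) = (1 / 2) ^ j / 2 := by
    rw [pow_succ]; ring
  have e3 : (2 : ℝ) ^ j * (1 / 2) ^ j = 1 := by
    rw [← mul_pow]; norm_num
  have hr : rhoj a ρ₀ j = min ρ₀ (a / 20) * ((1 / 2) ^ j * (1 / 2) ^ j / 8) := by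
    unfold rhoj; rw [e1]
  have hr0 : 0 < rhoj a ρ₀ j := by rw [hr]; positivity
  have hpp : ((1 : ℝ) / 2) ^ j * (1 / 2) ^ j ≤ 1 := mul_le_one₀ hp1 hp0.le hp1
  have hr1 : rhoj a ρ₀ j ≤ min ρ₀ (a / 20) / 8 := by
    rw [hr]
    have := mul_le_mul_of_nonneg_left hpp hq0.le
    linarith
  generalize hR : rhoj a ρ₀ j = r at *
  -- the number of squares in the direction of `σ`
  have hNs1 : 19 / 10 * a / r ≤ (Nsj a ρ₀ j : ℝ) := by
    unfold Nsj; rw [hR]; exact Nat.le_ceil _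
  have hNs2 : (Nsj a ρ₀ j : ℝ) < 19 / 10 * a / r + 1 := by
    unfold Nsj; rw [hR]; exact Nat.ceil_lt_add_one (by positivity)
  have hNs1' : 19 / 10 * a ≤ (Nsj a ρ₀ j : ℝ) * r := by
    rwa [div_le_iff₀ hr0] at hNs1
  have hNs2' : (Nsj a ρ₀ j : ℝ) * r ≤ 19 / 10 * a + r := by
    have := mul_le_mul_of_nonneg_right hNs2.le hr0.le
    have e : (19 / 10 * a / r + 1) * r = 19 / 10 * a + r := by field_simp
    linarith
  -- the number of squares in the direction of `t`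
  have hNt1 : (Ntj a ρ₀ j : ℝ) ≤ (1 / 2 : ℝ) ^ (j + 1) / r := by
    unfold Ntj; rw [hR]; exact Nat.floor_le (by positivity)
  have hNt2 : (1 / 2 : ℝ) ^ (j + 1) / r < (Ntj a ρ₀ j : ℝ) + 1 := by
    unfold Ntj; rw [hR]; exact Nat.lt_floor_add_one _
  have hNt1' : (Ntj a ρ₀ j : ℝ) * r ≤ (1 / 2 : ℝ) ^ (j + 1) := by
    rwa [le_div_iff₀ hr0] at hNt1
  have h2j : (1 : ℝ) ≤ 2 ^ j := one_le_pow₀ (by norm_num)
  have hX : 160 * (2 : ℝ) ^ j ≤ (1 / 2 : ℝ) ^ (j + 1) / r := by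
    rw [le_div_iff₀ hr0, e2, hr]
    have h1 : 160 * (2 : ℝ) ^ j * (min ρ₀ (a / 20) * ((1 / 2) ^ j * (1 / 2) ^ j / 8)) =
        20 * min ρ₀ (a / 20) * ((2 : ℝ) ^ j * (1 / 2) ^ j) * (1 / 2) ^ j := by ring
    rw [h1, e3]
    nlinarith
  have hNt : (2 : ℝ) ^ j ≤ (Ntj a ρ₀ j : ℝ) := by linarith
  have hNt0 : (0 : ℝ) < (Ntj a ρ₀ j : ℝ) := by linarith
  have hpi := Real.pi_gt_three
  simp only [BD, hR]
  refine ⟨hp0, by positivity, hNt1', ?_, hr0, by linarith, by linarith, ?_, by linarith,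
    by linarith, by ring, trivial⟩
  · rw [e2] at hNt1'
    linarith
  · rw [mul_div_assoc, div_self hr0.ne', mul_one]
    exact hNt

end Pool.Agent.Helper26.AB
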