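import Pool.Agent.Helper24.AB.PHI.Goals

/-! # Project AB (MP_1ef41b_an), packet PH1: assembly of `S_PHI1`. -/

open MeasureTheory Set Filter Topology
open scoped ContDiff

noncomputable section

namespace Pool.Agent.Helper26.AB

open Pool.Agent.Helper24.AB

/-- The constant. -/
def kc (a A κ : ℝ) : ℝ :=
  min (κ ^ 2 * A / 8) (min (9 / 80 * a ^ 2 * A) (a ^ 2 * A ^ 4 / 128))

theorem kc_pos {a A κ : ℝ} (ha : 0 < a) (hA : 0 < A) (hκ : 0 < κ) : 0 < kc a A κ := by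
  unfold kc
  refine lt_min (by positivity) (lt_min (by positivity) (by positivity))

section core
variable {a A κ e u v l g M F q P V : ℝ}

theorem sq_le' {x y : ℝ} (hx : 0 ≤ x) (hy : 0 ≤ y) (h : x ^ 2 ≤ y ^ 2) : x ≤ y :=
  (pow_le_pow_iff_left₀ hx hy two_ne_zero).mp h

/-- the term `a²/(4e²)` -/
theorem one_le_term (ha : 0 < a) (ha2 : a ≤ 1 / 2) (he : 0 < e) (he2 : e ≤ a ^ 2) :
    1 ≤ a ^ 2 / (4 * e ^ 2) := by
  rw [le_div_iff₀ (by positivity)]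
  have h1 : e ^ 2 ≤ (a ^ 2) ^ 2 := pow_le_pow_left₀ he.le he2 2
  have h2 : a ^ 2 ≤ 1 / 4 := by nlinarith
  nlinarith [sq_nonneg a]

/-- the case of small `F` -/
theorem small_case (ha : 0 < a) (ha2 : a ≤ 1 / 2) (hA : 0 < A) (hκ : κ ^ 2 < 0.0236)
    (he : 0 < e) (he2 : e ≤ a ^ 2) (hg : 0 ≤ g) (hM : M ^ 2 = u ^ 2 + g)
    (hF : A ^ 2 * e * (u ^ 2 + g) ≤ F) (hF4 : F < 4) :
    a ^ 2 * A ^ 4 / 64 * M ^ 4 ≤ a ^ 2 / (4 * e ^ 2) ∧
      κ ^ 2 * A / 4 * |u| ≤ a ^ 2 / (4 * e ^ 2) / 2 := by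
  have hx0 : 0 ≤ A ^ 2 * e * M ^ 2 := by positivity
  have hx : A ^ 2 * e * M ^ 2 < 4 := by rw [hM]; linarith
  constructor
  · rw [le_div_iff₀ (by positivity)]
    have h1 : (A ^ 2 * e * M ^ 2) ^ 2 ≤ 4 ^ 2 := pow_le_pow_left₀ hx0 hx.le 2
    have h2 : a ^ 2 * A ^ 4 / 64 * M ^ 4 * (4 * e ^ 2) = a ^ 2 * (A ^ 2 * e * M ^ 2) ^ 2 / 16 := by
      ring
    rw [h2]
    have := mul_le_mul_of_nonneg_left h1 (sq_nonneg a)
    linarith
  · have hz0 : 0 ≤ A * |u| := by positivity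
    have hz : (A * |u|) ^ 2 * e < 4 := by
      have : (A * |u|) ^ 2 * e = A ^ 2 * e * u ^ 2 := by rw [mul_pow, sq_abs]; ring
      rw [this]
      have h3 : A ^ 2 * e * u ^ 2 ≤ A ^ 2 * e * (u ^ 2 + g) :=
        mul_le_mul_of_nonneg_left (by linarith) (by positivity)
      linarith
    have h4 : A * |u| * e ^ 2 ≤ 2 * a ^ 3 := by
      apply sq_le' (by positivity) (by positivity)
      have e1 : (A * |u| * e ^ 2) ^ 2 = ((A * |u|) ^ 2 * e) * e ^ 3 := by ring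
      have e2 : (2 * a ^ 3) ^ 2 = 4 * (a ^ 2) ^ 3 := by ring
      rw [e1, e2]
      have h5 : e ^ 3 ≤ (a ^ 2) ^ 3 := pow_le_pow_left₀ he.le he2 3
      calc ((A * |u|) ^ 2 * e) * e ^ 3 ≤ 4 * e ^ 3 :=
            mul_le_mul_of_nonneg_right hz.le (by positivity)
        _ ≤ 4 * (a ^ 2) ^ 3 := by linarith
    rw [div_div, le_div_iff₀ (by positivity)]
    have e3 : κ ^ 2 * A / 4 * |u| * (4 * e ^ 2 * 2) = 2 * κ ^ 2 * (A * |u| * e ^ 2) := by ring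
    rw [e3]
    have h6 : 2 * κ ^ 2 * (A * |u| * e ^ 2) ≤ 2 * κ ^ 2 * (2 * a ^ 3) :=
      mul_le_mul_of_nonneg_left h4 (by positivity)
    have h7 : 2 * κ ^ 2 * (2 * a ^ 3) ≤ a ^ 2 := by
      have : 2 * κ ^ 2 * (2 * a ^ 3) = (4 * κ ^ 2 * a) * a ^ 2 := by ring
      rw [this]
      have h8 : 4 * κ ^ 2 * a ≤ 1 := by nlinarith [sq_nonneg κ]
      nlinarith [sq_nonneg a]
    linarith

theorem V_one (ha : 0 < a) (ha2 : a ≤ 1 / 2) (he : 0 < e) (he2 : e ≤ a ^ 2)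
    (hq : 0 ≤ q) (hP : 0 ≤ P) (hV : q * P + a ^ 2 / (4 * e ^ 2) ≤ V) : 1 ≤ V := by
  have := one_le_term ha ha2 he he2
  have := mul_nonneg hq hP
  linarith

/-- `V` in the case of large `F` -/
theorem V_large (he : 0 < e) (hq : 1 / 2 ≤ q) (hP : 0 ≤ P)
    (hV : q * P + a ^ 2 / (4 * e ^ 2) ≤ V) : P / 2 ≤ V := by
  have : 0 ≤ a ^ 2 / (4 * e ^ 2) := by positivity
  have := mul_le_mul_of_nonneg_right hq hP
  linarith

theorem neg_case (ha : 0 < a) (ha2 : a ≤ 1 / 2) (hA : 0 < A) (hκ0 : 0 < κ)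
    (hκ : κ ^ 2 < 0.0236)
    (he : 0 < e) (he2 : e ≤ a ^ 2) (hg : 0 ≤ g) (hM0 : 0 < M) (hM : M ^ 2 = u ^ 2 + g)
    (hF : A ^ 2 * e * (u ^ 2 + g) ≤ F) (hq : 0 ≤ q) (hq2 : 4 ≤ F → 1 / 2 ≤ q)
    (hP : κ ^ 2 * A * |u| + 9 / 20 * a ^ 2 * A * g / M ≤ P)
    (hV : q * P + a ^ 2 / (4 * e ^ 2) ≤ V) :
    0 ≤ V - κ ^ 2 * A / 4 * |u| ∧ (kc a A κ * M ≤ V - κ ^ 2 * A / 4 * |u| ∨
      kc a A κ * M ^ 4 ≤ V - κ ^ 2 * A / 4 * |u|) := by
  have hgM : 0 ≤ 9 / 20 * a ^ 2 * A * g / M := by positivity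
  have hu0 : 0 ≤ κ ^ 2 * A * |u| := by positivity
  have hP0 : 0 ≤ P := by linarith
  have hk1 : kc a A κ ≤ κ ^ 2 * A / 8 := min_le_left _ _
  have hk2 : kc a A κ ≤ 9 / 80 * a ^ 2 * A := (min_le_right _ _).trans (min_le_left _ _)
  have hk3 : kc a A κ ≤ a ^ 2 * A ^ 4 / 128 := (min_le_right _ _).trans (min_le_right _ _)
  rcases lt_or_ge F 4 with h4 | h4
  · obtain ⟨h1, h2⟩ := small_case ha ha2 hA hκ he he2 hg hM hF h4
    have h3 := mul_nonneg hq hP0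
    have h5 : 0 ≤ a ^ 2 / (4 * e ^ 2) := by positivity
    refine ⟨by linarith, Or.inr ?_⟩
    have h6 := mul_le_mul_of_nonneg_right hk3 (show 0 ≤ M ^ 4 by positivity)
    have h7 : a ^ 2 * A ^ 4 / 128 * M ^ 4 = (a ^ 2 * A ^ 4 / 64 * M ^ 4) / 2 := by ring
    linarith
  · have hV2 := V_large he (hq2 h4) hP0 hV
    have hb : κ ^ 2 * A * |u| / 4 + 9 / 40 * a ^ 2 * A * (g / M) ≤ V - κ ^ 2 * A / 4 * |u| := by
      have : 9 / 20 * a ^ 2 * A * g / M = 2 * (9 / 40 * a ^ 2 * A * (g / M)) := by ring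
      rw [this] at hP
      linarith
    have hgM' : 0 ≤ 9 / 40 * a ^ 2 * A * (g / M) := by positivity
    refine ⟨by linarith, Or.inl ?_⟩
    rcases le_total (u ^ 2) g with h | h
    · have h1 : M / 2 ≤ g / M := by
        rw [le_div_iff₀ hM0]
        nlinarith
      have h2 : 9 / 80 * a ^ 2 * A * M ≤ 9 / 40 * a ^ 2 * A * (g / M) := by
        have := mul_le_mul_of_nonneg_left h1 (show 0 ≤ 9 / 40 * a ^ 2 * A by positivity)
        linarith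
      have h3 := mul_le_mul_of_nonneg_right hk2 hM0.le
      linarith
    · have h1 : M ≤ 2 * |u| := by
        apply sq_le' hM0.le (by positivity)
        rw [mul_pow, sq_abs]
        nlinarith [sq_nonneg u]
      have h3 := mul_le_mul_of_nonneg_right hk1 hM0.le
      have h4 := mul_le_mul_of_nonneg_left h1 (show 0 ≤ κ ^ 2 * A / 8 by positivity)
      linarith

theorem edge_case (ha : 0 < a) (ha2 : a ≤ 1 / 2) (hA : 0 < A)
    (hκ : κ ^ 2 < 0.0236)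
    (he : 0 < e) (he2 : e ≤ a ^ 2) (hg : 0 ≤ g) (hM0 : 0 < M) (hM : M ^ 2 = u ^ 2 + g)
    (hF : A ^ 2 * e * (u ^ 2 + g) ≤ F) (hq : 0 ≤ q) (hq2 : 4 ≤ F → 1 / 2 ≤ q)
    (hP : 3 / 8 * a ^ 2 * A * M ≤ P)
    (hV : q * P + a ^ 2 / (4 * e ^ 2) ≤ V) :
    kc a A κ * M ≤ V ∨ kc a A κ * M ^ 4 ≤ V := by
  have hP0 : 0 ≤ P := le_trans (by positivity) hP
  have hk2 : kc a A κ ≤ 9 / 80 * a ^ 2 * A := (min_le_right _ _).trans (min_le_left _ _)
  have hk3 : kc a A κ ≤ a ^ 2 * A ^ 4 / 128 := (min_le_right _ _).trans (min_le_right _ _)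
  rcases lt_or_ge F 4 with h4 | h4
  · obtain ⟨h1, h2⟩ := small_case ha ha2 hA hκ he he2 hg hM hF h4
    have h3 := mul_nonneg hq hP0
    have h5 : 0 ≤ a ^ 2 / (4 * e ^ 2) := by positivity
    right
    have h6 := mul_le_mul_of_nonneg_right hk3 (show 0 ≤ M ^ 4 by positivity)
    have h7 : a ^ 2 * A ^ 4 / 128 * M ^ 4 = (a ^ 2 * A ^ 4 / 64 * M ^ 4) / 2 := by ring
    linarith
  · have hV2 := V_large he (hq2 h4) hP0 hV
    left
    have h3 := mul_le_mul_of_nonneg_right hk2 hM0.le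
    have h4 : 0 ≤ a ^ 2 * A * M := by positivity
    nlinarith

theorem R_case (ha : 0 < a) (ha2 : a ≤ 1 / 2) (hA : 0 < A)
    (hκ : κ ^ 2 < 0.0236)
    (he : 0 < e) (he2 : e ≤ a ^ 2) (hu : 0 < u) (hM0 : 0 < M) (hM : M ^ 2 = u ^ 2 + g)
    (hF : A ^ 2 * e * (u ^ 2 + g) ≤ F) (hq : 0 ≤ q) (hq2 : 4 ≤ F → 1 / 2 ≤ q)
    (hP : 9 / 20 * a ^ 2 * A * g / M ≤ P)
    (hV : q * P + a ^ 2 / (4 * e ^ 2) ≤ V) {R : ℝ} (hR : 1 ≤ R) (hRg : R * (1 + u) ≤ g) :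
    kc a A κ * Real.sqrt R ≤ V := by
  have hgR : R ≤ g := by nlinarith
  have hg : 0 ≤ g := by linarith
  have hP0 : 0 ≤ P := le_trans (by positivity) hP
  have hk2 : kc a A κ ≤ 9 / 80 * a ^ 2 * A := (min_le_right _ _).trans (min_le_left _ _)
  have hk3 : kc a A κ ≤ a ^ 2 * A ^ 4 / 128 := (min_le_right _ _).trans (min_le_right _ _)
  have hsR : Real.sqrt R ^ 2 = R := Real.sq_sqrt (by linarith)
  have hsR0 : 0 ≤ Real.sqrt R := Real.sqrt_nonneg R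
  have hsR1 : Real.sqrt R ≤ R := by
    rw [Real.sqrt_le_left (by linarith)]
    nlinarith
  rcases lt_or_ge F 4 with h4 | h4
  · obtain ⟨h1, h2⟩ := small_case ha ha2 hA hκ he he2 hg hM hF h4
    have h3 := mul_nonneg hq hP0
    have h5 : 0 ≤ a ^ 2 / (4 * e ^ 2) := by positivity
    have hM4 : Real.sqrt R ≤ M ^ 4 := by
      have e1 : M ^ 4 = (u ^ 2 + g) ^ 2 := by rw [← hM]; ring
      rw [e1]
      have h8 : R ≤ u ^ 2 + g := by nlinarith [sq_nonneg u]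
      nlinarith
    have h6 := mul_le_mul hk3 hM4 hsR0 (by positivity)
    have h7 : a ^ 2 * A ^ 4 / 128 * M ^ 4 = (a ^ 2 * A ^ 4 / 64 * M ^ 4) / 2 := by ring
    linarith
  · have hV2 := V_large he (hq2 h4) hP0 hV
    have h1 : Real.sqrt R ≤ g / M := by
      rw [le_div_iff₀ hM0]
      apply sq_le' (by positivity) hg
      rw [mul_pow, hsR, hM]
      have h8 : R * g + R * u * g ≤ g * g := by nlinarith
      have h9 : R * u ^ 2 ≤ R * u * g := by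
        have : u ≤ g := by nlinarith
        nlinarith [mul_pos (show 0 < R by linarith) hu]
      nlinarith
    have h2 : 9 / 20 * a ^ 2 * A * g / M = 9 / 20 * a ^ 2 * A * (g / M) := by ring
    rw [h2] at hP
    have h3 := mul_le_mul_of_nonneg_left h1 (show 0 ≤ 9 / 20 * a ^ 2 * A by positivity)
    have h5 := mul_le_mul_of_nonneg_right hk2 hsR0
    have h6 : 0 ≤ a ^ 2 * A * Real.sqrt R := by positivity
    nlinarith

/-- from the two alternatives to the bound with `W` -/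
theorem to_W {k W X : ℝ} (hk : 0 < k) (hM0 : 0 < M) (hW : W ≤ 2 + 3 * M)
    (h : k * M ≤ X ∨ k * M ^ 4 ≤ X) {C : ℝ} (hC : 5 * k ≤ C) : k / 3 * W - C ≤ X := by
  have h1 : k / 3 * W ≤ k / 3 * (2 + 3 * M) := mul_le_mul_of_nonneg_left hW (by positivity)
  rcases h with h | h
  · linarith
  · have h2 : M - 1 ≤ M ^ 4 := by nlinarith [sq_nonneg (M ^ 2 - 1 / 2), sq_nonneg (M - 1)]
    have h3 := mul_le_mul_of_nonneg_left h2 hk.le
    linarith

end core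

theorem W_le (α α' l t : ℝ) :
    Wf α α' l t ≤ 2 + 3 * Real.sqrt (uf α t ^ 2 + gf α' l t) := by
  unfold Wf gf
  have h1 : |uf α t| ≤ Real.sqrt (uf α t ^ 2 + (vf α' t ^ 2 + l ^ 2)) :=
    Real.abs_le_sqrt (by nlinarith [sq_nonneg (vf α' t), sq_nonneg l])
  have h2 : |vf α' t| ≤ Real.sqrt (uf α t ^ 2 + (vf α' t ^ 2 + l ^ 2)) :=
    Real.abs_le_sqrt (by nlinarith [sq_nonneg (uf α t), sq_nonneg l])
  have h3 : |l| ≤ Real.sqrt (uf α t ^ 2 + (vf α' t ^ 2 + l ^ 2)) :=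
    Real.abs_le_sqrt (by nlinarith [sq_nonneg (uf α t), sq_nonneg (vf α' t)])
  linarith

theorem ph1 (hn : S_NUM) (hqf : S_QF) (hfb : S_FB) (hvlb : S_VLB) (hpa : S_PA)
    (hvap : S_VAP) : S_PH1 := by
  intro a A s hs
  obtain ⟨C₁, hC₁, hC₁'⟩ := hvap a A s hs
  have ha := hs.a_pos
  have ha2 := hs.a_le
  have hA := hs.A_pos
  have hk15 : 0.15 < kap := hn.2.2.2.2.2.2.2.2.2.2.2.2.2.2.2.1
  have hk0 : 0 < kap := by linarith
  have hκ : kap ^ 2 < 0.0236 := hn.2.2.2.2.2.2.2.2.2.2.2.2.2.2.2.2.2.1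
  obtain ⟨-, -, -, -, -, hq0, -, -, -, hq4, -⟩ := hqf
  have hk := kc_pos ha hA hk0
  refine ⟨kc a A kap / 3, 5 * kc a A kap + C₁, by positivity, by positivity, ?_⟩
  intro α α' l hα w hw
  have hJ : α ≠ 0 ∨ α' ≠ 0 ∨ l ≠ 0 := Or.inl hα
  obtain ⟨-, hF2, -, -, -, -⟩ := hfb a A s hs α α' l w hw
  have hV := hvlb a A s hs α α' l hJ w hw
  obtain ⟨hk1, hP1, hP2⟩ := hpa a A s hs α α' l hJ w hw
  have hvap' := fun h => hC₁' α α' l h w hw
  have hW := W_le α α' l w.im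
  have hg : 0 ≤ gf α' l w.im := by unfold gf; positivity
  have hvg : vf α' w.im ^ 2 ≤ gf α' l w.im := by
    unfold gf; nlinarith [sq_nonneg l]
  have he : 0 < a ^ 2 - w.re ^ 2 := by
    have hw' : |w.re| < a := hw
    have := sq_lt_sq' (abs_lt.mp hw').1 (abs_lt.mp hw').2
    linarith
  have he2 : a ^ 2 - w.re ^ 2 ≤ a ^ 2 := by nlinarith [sq_nonneg w.re]
  have hu : uf α w.im ≠ 0 := mul_ne_zero hα (Real.exp_ne_zero _)
  have huneg : α < 0 → uf α w.im < 0 := fun h => mul_neg_of_neg_of_pos h (Real.exp_pos _)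
  have hupos : 0 < α → 0 < uf α w.im := fun h => mul_pos h (Real.exp_pos _)
  have hu2 : 0 < uf α w.im ^ 2 := by positivity
  have hM : Real.sqrt (uf α w.im ^ 2 + gf α' l w.im) ^ 2 = uf α w.im ^ 2 + gf α' l w.im :=
    Real.sq_sqrt (by positivity)
  have hM0 : 0 < Real.sqrt (uf α w.im ^ 2 + gf α' l w.im) :=
    Real.sqrt_pos.mpr (by positivity)
  have hF0 : 0 ≤ Ff a A s α α' l w := le_trans (by positivity) hF2
  have hq : 0 ≤ qf (2 * Real.sqrt (Ff a A s α α' l w)) := hq0 _ (by positivity)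
  have hq2 : 4 ≤ Ff a A s α α' l w → 1 / 2 ≤ qf (2 * Real.sqrt (Ff a A s α α' l w)) := by
    intro h
    apply hq4
    have : (2 : ℝ) ≤ Real.sqrt (Ff a A s α α' l w) := by
      rw [show (2 : ℝ) = Real.sqrt 4 by
        rw [show (4 : ℝ) = 2 ^ 2 by norm_num, Real.sqrt_sq (by norm_num)]]
      exact Real.sqrt_le_sqrt h
    linarith
  generalize lapC (Phi0 a A s α α' l) w = V at *
  generalize -lapC (H0f a A s α α' l) w = P at *
  generalize qf (2 * Real.sqrt (Ff a A s α α' l w)) = q at *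
  generalize Ff a A s α α' l w = F at *
  generalize Real.sqrt (uf α w.im ^ 2 + gf α' l w.im) = M at *
  generalize gf α' l w.im = g at *
  generalize uf α w.im = u at *
  generalize a ^ 2 - w.re ^ 2 = e at *
  have hmax : 0 ≤ kap ^ 2 * A * max (-u) 0 := by
    have : 0 ≤ max (-u) 0 := le_max_right _ _
    positivity
  have hgM : 0 ≤ 9 / 20 * a ^ 2 * A * g / M := by positivity
  have hP0 : 0 ≤ P := by linarith
  refine ⟨V_one ha ha2 he he2 hq hP0 hV, hk1, ?_, ?_, ?_, ?_⟩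
  · intro hneg
    have hun := huneg hneg
    have habs : |u| = max (-u) 0 := by
      rw [abs_of_neg hun, max_eq_left (by linarith)]
    have hP1' : kap ^ 2 * A * |u| + 9 / 20 * a ^ 2 * A * g / M ≤ P := by rw [habs]; exact hP1
    obtain ⟨h1, h2⟩ := neg_case ha ha2 hA hk0 hκ he he2 hg hM0 hM hF2 hq hq2 hP1' hV
    exact ⟨h1, to_W hk hM0 hW h2 (by linarith)⟩
  · intro _ hσ
    exact to_W hk hM0 hW
      (edge_case ha ha2 hA hκ he he2 hg hM0 hM hF2 hq hq2 (hP2 hσ) hV) (by linarith)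
  · intro hpos R hR hRv
    have h1 := R_case ha ha2 hA hκ he he2 (hupos hpos) hM0 hM hF2 hq hq2 (by linarith) hV hR
      (hRv.trans hvg)
    have h2 : kc a A kap / 3 * Real.sqrt R ≤ kc a A kap * Real.sqrt R :=
      mul_le_mul_of_nonneg_right (by linarith) (Real.sqrt_nonneg R)
    linarith
  · intro hpos hσ hgu
    have := hvap' hpos hσ hgu
    linarith

end Pool.Agent.Helper26.AB
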