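import Pool.Agent.Helper24.AB.PP.Goals

/-! # Project AB (MP_1ef41b_an), packet VP: a smooth convex approximation of the absolute value. -/

open MeasureTheory Set Filter Topology
open scoped ContDiff

noncomputable section

namespace Pool.Agent.Helper26.AB

open Pool.Agent.Helper24.AB

/-- The derivative of the approximation. -/
def wf (δ x : ℝ) : ℝ := 2 * Real.smoothTransition ((x / δ + 1) / 2) - 1

theorem wf_contDiff (δ : ℝ) : ContDiff ℝ ∞ (wf δ) := by
  unfold wf
  have : ContDiff ℝ ∞ fun x : ℝ => (x / δ + 1) / 2 :=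
    ((contDiff_id.div_const δ).add contDiff_const).div_const 2
  exact (contDiff_const.mul (Real.smoothTransition.contDiff.comp this)).sub contDiff_const

theorem wf_mono {δ : ℝ} (hδ : 0 < δ) : Monotone (wf δ) := by
  intro x y h
  unfold wf
  have : x / δ ≤ y / δ := div_le_div_of_nonneg_right h hδ.le
  have := Real.smoothTransition.monotone (a := (x / δ + 1) / 2) (b := (y / δ + 1) / 2)
    (by linarith)
  linarith

theorem st_symm (x : ℝ) : Real.smoothTransition (1 - x) = 1 - Real.smoothTransition x := by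
  unfold Real.smoothTransition
  have h := (Real.smoothTransition.pos_denom x).ne'
  have h2 : expNegInvGlue (1 - x) + expNegInvGlue (1 - (1 - x)) ≠ 0 :=
    (Real.smoothTransition.pos_denom (1 - x)).ne'
  have e : (1 : ℝ) - (1 - x) = x := by ring
  rw [e] at h2 ⊢
  field_simp
  ring

theorem wf_neg (δ x : ℝ) : wf δ (-x) = -wf δ x := by
  unfold wf
  have e : (-x / δ + 1) / 2 = 1 - (x / δ + 1) / 2 := by ring
  rw [e, st_symm]
  ring

theorem wf_high {δ : ℝ} (hδ : 0 < δ) {x : ℝ} (hx : δ ≤ x) : wf δ x = 1 := by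
  unfold wf
  have : 1 ≤ x / δ := by rwa [one_le_div hδ]
  rw [Real.smoothTransition.one_of_one_le (by linarith)]
  norm_num

theorem wf_low {δ : ℝ} (hδ : 0 < δ) {x : ℝ} (hx : x ≤ -δ) : wf δ x = -1 := by
  have := wf_high hδ (x := -x) (by linarith)
  rw [wf_neg] at this
  linarith

theorem wf_abs (δ x : ℝ) : |wf δ x| ≤ 1 := by
  rw [abs_le]
  unfold wf
  have h1 := Real.smoothTransition.le_one ((x / δ + 1) / 2)
  have h2 := Real.smoothTransition.nonneg ((x / δ + 1) / 2)
  constructor <;> linarith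

theorem wf_nonneg {δ : ℝ} (hδ : 0 < δ) {x : ℝ} (hx : 0 ≤ x) : 0 ≤ wf δ x := by
  have h0 : wf δ 0 = 0 := by
    have := wf_neg δ 0
    rw [neg_zero] at this
    linarith
  rw [← h0]
  exact wf_mono hδ hx

/-- The approximation. -/
def vf (δ x : ℝ) : ℝ := δ + ∫ s in δ..x, wf δ s

theorem vf_hasDeriv (δ x : ℝ) : HasDerivAt (vf δ) (wf δ x) x := by
  have h : HasDerivAt (fun x => ∫ s in δ..x, wf δ s) (wf δ x) x :=
    intervalIntegral.integral_hasDerivAt_right
      ((wf_contDiff δ).continuous.intervalIntegrable _ _)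
      ((wf_contDiff δ).continuous.stronglyMeasurableAtFilter _ _)
      (wf_contDiff δ).continuous.continuousAt
  exact h.const_add δ

theorem vf_deriv (δ : ℝ) : deriv (vf δ) = wf δ := funext fun x => (vf_hasDeriv δ x).deriv

theorem vf_diff (δ : ℝ) : Differentiable ℝ (vf δ) := fun x => (vf_hasDeriv δ x).differentiableAt

theorem vf_contDiff (δ : ℝ) : ContDiff ℝ ∞ (vf δ) := by
  rw [contDiff_infty_iff_deriv]
  exact ⟨vf_diff δ, by rw [vf_deriv]; exact wf_contDiff δ⟩

theorem vf_even (δ x : ℝ) : vf δ (-x) = vf δ x := by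
  have hd : ∀ y, HasDerivAt (fun y => vf δ (-y) - vf δ y) 0 y := by
    intro y
    have h1 := (vf_hasDeriv δ (-y)).comp y (hasDerivAt_neg y)
    have h2 := h1.sub (vf_hasDeriv δ y)
    have e : wf δ (-y) * -1 - wf δ y = 0 := by rw [wf_neg]; ring
    rw [e] at h2
    exact h2
  have hc := is_const_of_deriv_eq_zero (f := fun y => vf δ (-y) - vf δ y)
    (fun y => (hd y).differentiableAt) (fun y => (hd y).deriv) x 0
  simp only [neg_zero, sub_self] at hc
  linarith

theorem vf_high {δ : ℝ} (hδ : 0 < δ) {x : ℝ} (hx : δ ≤ x) : vf δ x = x := by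
  unfold vf
  have : (∫ s in δ..x, wf δ s) = ∫ s in δ..x, (1 : ℝ) := by
    apply intervalIntegral.integral_congr
    intro s hs
    rw [uIcc_of_le hx] at hs
    exact wf_high hδ hs.1
  rw [this]
  simp

theorem vf_ge {δ : ℝ} (hδ : 0 < δ) (x : ℝ) : x ≤ vf δ x := by
  have hd : ∀ y, HasDerivAt (fun y => vf δ y - y) (wf δ y - 1) y := fun y =>
    (vf_hasDeriv δ y).sub (hasDerivAt_id y)
  have ha : Antitone fun y => vf δ y - y := by
    apply antitone_of_deriv_nonpos (fun y => (hd y).differentiableAt)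
    intro y
    rw [(hd y).deriv]
    have := (abs_le.mp (wf_abs δ y)).2
    linarith
  have h1 := ha (le_max_left x δ)
  simp only at h1
  rw [vf_high hδ (le_max_right x δ)] at h1
  linarith

theorem vf_abs {δ : ℝ} (hδ : 0 < δ) (x : ℝ) : |x| ≤ vf δ x := by
  rw [abs_le]
  have h1 := vf_ge hδ x
  have h2 := vf_ge hδ (-x)
  rw [vf_even] at h2
  constructor <;> linarith

theorem vf_le0 {δ : ℝ} (hδ : 0 < δ) {x : ℝ} (hx : 0 ≤ x) : vf δ x ≤ x + δ := by
  rcases le_total δ x with h | h
  · rw [vf_high hδ h]; linarith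
  · have hx' : 0 ≤ ∫ s in x..δ, wf δ s :=
      intervalIntegral.integral_nonneg h (fun s hs => wf_nonneg hδ (hx.trans hs.1))
    unfold vf
    rw [intervalIntegral.integral_symm]
    linarith

theorem vf_le {δ : ℝ} (hδ : 0 < δ) (x : ℝ) : vf δ x ≤ |x| + δ := by
  rcases le_total 0 x with h | h
  · rw [abs_of_nonneg h]; exact vf_le0 hδ h
  · rw [abs_of_nonpos h, ← vf_even]; exact vf_le0 hδ (by linarith)

theorem vp : S_VP := by
  intro δ hδ
  refine ⟨vf δ, vf_contDiff δ, vf_even δ, ?_, ?_, ?_, vf_abs hδ, vf_le hδ, ?_, ?_, ?_⟩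
  · intro x hx
    rcases le_total 0 x with h | h
    · rw [abs_of_nonneg h] at hx ⊢
      exact vf_high hδ hx
    · rw [abs_of_nonpos h] at hx ⊢
      rw [← vf_even]
      exact vf_high hδ hx
  · intro x
    rw [vf_deriv]
    exact wf_abs δ x
  · intro x
    rw [vf_deriv]
    exact (wf_mono hδ).deriv_nonneg
  · intro x
    rw [vf_deriv]
    calc x * wf δ x ≤ |x * wf δ x| := le_abs_self _
      _ = |x| * |wf δ x| := abs_mul _ _
      _ ≤ |x| * 1 := mul_le_mul_of_nonneg_left (wf_abs δ x) (abs_nonneg x)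
      _ ≤ vf δ x := by rw [mul_one]; exact vf_abs hδ x
  · intro x hx
    rw [vf_deriv]
    exact wf_high hδ hx
  · intro x hx
    rw [vf_deriv]
    exact wf_low hδ hx

end Pool.Agent.Helper26.AB
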