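import Pool.Agent.Helper95.AB.GoalsW

/-! # Project AB (MP_1ef41b_an), packet WNEG: size of the weight for negative `α`. -/

open MeasureTheory Set Filter Topology
open scoped ContDiff

noncomputable section

namespace Pool.Agent.Helper26.AB

open Pool.Agent.Helper24.AB Pool.Agent.Helper95.AB

section ell
variable {ell : ℝ → ℝ} {R : ℝ}

theorem exp_ell_le (hR : 1 ≤ R) (h1 : ∀ x ≤ 1, ell x = 0)
    (h3 : ∀ x, 1 ≤ x → ell x ≤ Real.log x) (x : ℝ) :
    Real.exp (ell (x ^ 2 / R)) ≤ 1 + x ^ 2 := by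
  have hx : x ^ 2 / R ≤ x ^ 2 := div_le_self (sq_nonneg x) hR
  rcases le_total (x ^ 2 / R) 1 with h | h
  · rw [h1 _ h, Real.exp_zero]
    nlinarith [sq_nonneg x]
  · calc Real.exp (ell (x ^ 2 / R)) ≤ Real.exp (Real.log (x ^ 2 / R)) :=
          Real.exp_le_exp.mpr (h3 _ h)
      _ = x ^ 2 / R := Real.exp_log (by linarith)
      _ ≤ 1 + x ^ 2 := by linarith

theorem le_exp_ell (hR : 1 ≤ R) (h0 : ∀ x, 0 ≤ ell x)
    (h2 : ∀ x, 1 ≤ x → Real.log x - 1 ≤ ell x) (x : ℝ) :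
    1 + |x| ≤ 6 * R * Real.exp (ell (x ^ 2 / R)) := by
  have hR0 : 0 < R := by linarith
  rcases le_total (x ^ 2 / R) 1 with h | h
  · have he : 1 ≤ Real.exp (ell (x ^ 2 / R)) := Real.one_le_exp (h0 _)
    rw [div_le_one hR0] at h
    have hx : |x| ≤ R := by
      have : |x| ^ 2 ≤ R ^ 2 := by rw [sq_abs]; nlinarith
      exact (pow_le_pow_iff_left₀ (abs_nonneg x) hR0.le two_ne_zero).mp this
    have := mul_le_mul_of_nonneg_left he (show 0 ≤ 6 * R by positivity)
    linarith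
  · have he : x ^ 2 / R * Real.exp (-1) ≤ Real.exp (ell (x ^ 2 / R)) := by
      calc x ^ 2 / R * Real.exp (-1) = Real.exp (Real.log (x ^ 2 / R)) * Real.exp (-1) := by
            rw [Real.exp_log (by linarith)]
        _ = Real.exp (Real.log (x ^ 2 / R) - 1) := by rw [← Real.exp_add]; ring_nf
        _ ≤ Real.exp (ell (x ^ 2 / R)) := Real.exp_le_exp.mpr (h2 _ h)
    have h3 : 1 / 3 ≤ Real.exp (-1) := by
      rw [Real.exp_neg, ← one_div]
      apply one_div_le_one_div_of_le (Real.exp_pos _)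
      have := Real.exp_one_lt_d9
      linarith
    have h4 : x ^ 2 / R * (1 / 3) ≤ Real.exp (ell (x ^ 2 / R)) :=
      le_trans (mul_le_mul_of_nonneg_left h3 (by positivity)) he
    have h5 : x ^ 2 ≤ 3 * R * Real.exp (ell (x ^ 2 / R)) := by
      have e1 : x ^ 2 = 3 * R * (x ^ 2 / R * (1 / 3)) := by field_simp
      have := mul_le_mul_of_nonneg_left h4 (show 0 ≤ 3 * R by positivity)
      linarith
    rw [one_le_div hR0] at h
    have hx1 : 1 ≤ |x| := by
      have : (1 : ℝ) ^ 2 ≤ |x| ^ 2 := by rw [sq_abs]; linarith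
      exact (pow_le_pow_iff_left₀ zero_le_one (abs_nonneg x) two_ne_zero).mp this
    have hx2 : |x| ≤ x ^ 2 := by
      rw [← sq_abs]; nlinarith
    linarith

end ell

theorem uv_eq (J : Fin 3 → ℤ) (t : ℝ) : |uF J t| * |vF J t| = |alp J * alp' J| := by
  rw [← abs_mul]
  congr 1
  unfold uF vF uf vf
  have : Real.exp (kap * t) * Real.exp (-(kap * t)) = 1 := by
    rw [← Real.exp_add, add_neg_cancel, Real.exp_zero]
  calc alp J * Real.exp (kap * t) * (alp' J * Real.exp (-(kap * t))) =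
        alp J * alp' J * (Real.exp (kap * t) * Real.exp (-(kap * t))) := by ring
    _ = alp J * alp' J := by rw [this, mul_one]

theorem WF_eq (J : Fin 3 → ℤ) (t : ℝ) :
    WF J t = 2 + |uF J t| + |vF J t| + |(J 2 : ℝ)| := rfl

theorem MJ_pos (J : Fin 3 → ℤ) : 0 < MJ J := by unfold MJ; positivity

theorem MJ_le_sq (J : Fin 3 → ℤ) (t : ℝ) : MJ J ≤ WF J t ^ 2 := by
  rw [WF_eq]
  unfold MJ
  rw [← uv_eq J t, ← sq_abs (J 2 : ℝ)]
  have h1 := abs_nonneg (uF J t)
  have h2 := abs_nonneg (vF J t)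
  have h3 := abs_nonneg (J 2 : ℝ)
  have h4 := mul_nonneg h1 h2
  have h5 := mul_nonneg h1 h3
  have h6 := mul_nonneg h2 h3
  nlinarith

theorem WF_le (J : Fin 3 → ℤ) (t : ℝ) :
    WF J t ≤ 2 * ((1 + |uF J t|) * (1 + |vF J t|)) * MJ J := by
  rw [WF_eq]
  have h1 := abs_nonneg (uF J t)
  have h2 := abs_nonneg (vF J t)
  have h3 := abs_nonneg (J 2 : ℝ)
  have h4 := mul_nonneg h1 h2
  have hM : 1 + |(J 2 : ℝ)| ≤ MJ J := by
    unfold MJ
    have := abs_nonneg (alp J * alp' J)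
    rw [← sq_abs (J 2 : ℝ)]
    nlinarith [sq_nonneg (|(J 2 : ℝ)| - 1)]
  have h5 : 2 * ((1 + |uF J t|) * (1 + |vF J t|)) * (1 + |(J 2 : ℝ)|) ≤
      2 * ((1 + |uF J t|) * (1 + |vF J t|)) * MJ J :=
    mul_le_mul_of_nonneg_left hM (by positivity)
  have h6 := mul_nonneg h1 h3
  have h7 := mul_nonneg h2 h3
  have h8 := mul_nonneg h4 h3
  nlinarith

theorem wneg : S_WNEG := by
  intro N R ell hR h0 h1 h2 h3
  refine ⟨(72 * R ^ 2) ^ N, 6 * N, ?_⟩
  intro J t
  have hR0 : 0 < R := by linarith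
  have hM := MJ_pos J
  have hW2 : 2 ≤ WF J t := by
    rw [WF_eq]
    have h1 := abs_nonneg (uF J t)
    have h2 := abs_nonneg (vF J t)
    have h3 := abs_nonneg (J 2 : ℝ)
    linarith
  have hexp : Real.exp (N * (ell (uF J t ^ 2 / R) + ell (vF J t ^ 2 / R)) +
      N * Real.log (MJ J)) =
      (Real.exp (ell (uF J t ^ 2 / R)) * Real.exp (ell (vF J t ^ 2 / R)) * MJ J) ^ N := by
    have e1 : MJ J = Real.exp (Real.log (MJ J)) := (Real.exp_log hM).symm
    conv_rhs => rw [e1]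
    rw [← Real.exp_add, ← Real.exp_add, ← Real.exp_nat_mul]
    congr 1
    ring
  have hC : 1 ≤ (72 * R ^ 2) ^ N := one_le_pow₀ (by nlinarith)
  rw [hexp]
  constructor
  · rw [← mul_pow]
    apply pow_le_pow_left₀ (by linarith)
    have hu := le_exp_ell hR h0 h2 (uF J t)
    have hv := le_exp_ell hR h0 h2 (vF J t)
    have huv : (1 + |uF J t|) * (1 + |vF J t|) ≤
        (6 * R * Real.exp (ell (uF J t ^ 2 / R))) * (6 * R * Real.exp (ell (vF J t ^ 2 / R))) :=
      mul_le_mul hu hv (by positivity) (by positivity)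
    calc WF J t ≤ 2 * ((1 + |uF J t|) * (1 + |vF J t|)) * MJ J := WF_le J t
      _ ≤ 2 * ((6 * R * Real.exp (ell (uF J t ^ 2 / R))) *
          (6 * R * Real.exp (ell (vF J t ^ 2 / R)))) * MJ J :=
          mul_le_mul_of_nonneg_right (by linarith) hM.le
      _ = 72 * R ^ 2 * (Real.exp (ell (uF J t ^ 2 / R)) * Real.exp (ell (vF J t ^ 2 / R)) *
          MJ J) := by ring
  · have hu := exp_ell_le hR h1 h3 (uF J t)
    have hv := exp_ell_le hR h1 h3 (vF J t)
    have hW0 : 0 ≤ WF J t := by linarith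
    have hu2 : 1 + uF J t ^ 2 ≤ WF J t ^ 2 := by
      rw [WF_eq, ← sq_abs (uF J t)]
      have h1 := abs_nonneg (uF J t)
      have h2 := abs_nonneg (vF J t)
      have h3 := abs_nonneg (J 2 : ℝ)
      nlinarith [mul_nonneg h1 h2, mul_nonneg h1 h3, mul_nonneg h2 h3]
    have hv2 : 1 + vF J t ^ 2 ≤ WF J t ^ 2 := by
      rw [WF_eq, ← sq_abs (vF J t)]
      have h1 := abs_nonneg (uF J t)
      have h2 := abs_nonneg (vF J t)
      have h3 := abs_nonneg (J 2 : ℝ)
      nlinarith [mul_nonneg h1 h2, mul_nonneg h1 h3, mul_nonneg h2 h3]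
    have hprod : Real.exp (ell (uF J t ^ 2 / R)) * Real.exp (ell (vF J t ^ 2 / R)) * MJ J ≤
        WF J t ^ 6 := by
      calc Real.exp (ell (uF J t ^ 2 / R)) * Real.exp (ell (vF J t ^ 2 / R)) * MJ J
          ≤ WF J t ^ 2 * WF J t ^ 2 * WF J t ^ 2 := by
            apply mul_le_mul (mul_le_mul (hu.trans hu2) (hv.trans hv2) (Real.exp_pos _).le
              (by positivity)) (MJ_le_sq J t) hM.le (by positivity)
        _ = WF J t ^ 6 := by ring
    calc (Real.exp (ell (uF J t ^ 2 / R)) * Real.exp (ell (vF J t ^ 2 / R)) * MJ J) ^ N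
        ≤ (WF J t ^ 6) ^ N := pow_le_pow_left₀ (by positivity) hprod N
      _ = WF J t ^ (6 * N) := by rw [pow_mul]
      _ ≤ (72 * R ^ 2) ^ N * WF J t ^ (6 * N) := by
          have : 0 ≤ WF J t ^ (6 * N) := by positivity
          nlinarith

end Pool.Agent.Helper26.AB
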